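import Pool.Agent.Y288.NS.Dil

/-! The sine modes with frequencies not divisible by `N`. -/

open Set Filter Topology MeasureTheory

set_option autoImplicit false

namespace Pool.Agent.Y288.NS

open Pool.Agent.Y5 Pool.Agent.Y5.D Pool.Agent.Y5.E Pool.Agent.Y5.F Pool.Agent.Y5.G
open Pool.Agent.Y691.ND.F (coord_le sum_three sum_rap rap_all)

variable {N : ℕ}

lemma vec_neg (k : Z3) : vec (-k) = -vec k := by
  ext i
  simp [vec]

lemma vec_ne {k : Z3} (hk : k ≠ 0) : vec k ≠ 0 := by
  intro h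
  apply hk
  funext i
  have h1 := coord_le k i
  rw [h, norm_zero] at h1
  have h2 := abs_nonneg (k i : ℝ)
  have h3 : |(k i : ℝ)| = 0 := le_antisymm h1 h2
  have h4 := abs_eq_zero.1 h3
  exact_mod_cast h4

lemma one_le_vec {k : Z3} (hk : k ≠ 0) : 1 ≤ ‖vec k‖ := by
  obtain ⟨i, hi⟩ : ∃ i, k i ≠ 0 := by
    by_contra h
    push Not at h
    exact hk (funext h)
  refine le_trans ?_ (coord_le k i)
  have h1 : (1 : ℤ) ≤ |k i| := Int.one_le_abs hi
  exact_mod_cast h1

lemma pol_exists {k : Z3} (hk : k ≠ 0) :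
    ∃ p : Fin 2 → E3, Orthonormal ℝ p ∧ ∀ σ, inner ℝ (vec k) (p σ) = 0 := by
  have hv : vec k ≠ 0 := vec_ne hk
  have : Fact (Module.finrank ℝ E3 = 2 + 1) := ⟨by simp⟩
  have h1 : Module.finrank ℝ (ℝ ∙ vec k)ᗮ = 2 := Submodule.finrank_orthogonal_span_singleton hv
  let b := (stdOrthonormalBasis ℝ (ℝ ∙ vec k)ᗮ).reindex (finCongr h1)
  refine ⟨fun σ => (b σ : E3), ?_, ?_⟩
  · exact b.orthonormal.comp_linearIsometry (Submodule.subtypeₗᵢ _)
  · intro σ
    exact Submodule.mem_orthogonal_singleton_iff_inner_right.1 (b σ).2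

lemma pol_spec {k : Z3} (hk : k ≠ 0) :
    Orthonormal ℝ (pol k) ∧ ∀ σ, inner ℝ (vec k) (pol k σ) = 0 := by
  unfold pol
  rw [dif_pos (pol_exists hk)]
  exact (pol_exists hk).choose_spec

lemma pol_expand {k : Z3} (hk : k ≠ 0) (v : E3) (hv : inner ℝ (vec k) v = 0) :
    ∑ σ, inner ℝ (pol k σ) v • pol k σ = v := by
  obtain ⟨h1, h2⟩ := pol_spec hk
  have hn : 0 < ‖vec k‖ := norm_pos_iff.2 (vec_ne hk)
  let u : Fin 3 → E3 := Fin.cons (‖vec k‖⁻¹ • vec k) (pol k)
  have hu : Orthonormal ℝ u := by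
    rw [orthonormal_iff_ite] at h1 ⊢
    intro i j
    refine Fin.cases ?_ (fun i => ?_) i <;> refine Fin.cases ?_ (fun j => ?_) j
    · simp only [u, Fin.cons_zero, if_true]
      rw [real_inner_smul_left, real_inner_smul_right, real_inner_self_eq_norm_sq]
      field_simp
    · simp only [u, Fin.cons_zero, Fin.cons_succ]
      rw [real_inner_smul_left, h2, mul_zero, if_neg (Fin.succ_ne_zero j).symm]
    · simp only [u, Fin.cons_zero, Fin.cons_succ]
      rw [real_inner_smul_right, real_inner_comm, h2, mul_zero, if_neg (Fin.succ_ne_zero i)]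
    · simp only [u, Fin.cons_succ]
      rw [h1]
      simp [Fin.succ_inj]
  have hsp : ⊤ ≤ Submodule.span ℝ (Set.range u) := by
    rw [hu.linearIndependent.span_eq_top_of_card_eq_finrank (by simp)]
  let b := OrthonormalBasis.mk hu hsp
  have hb : ∀ i, b i = u i := fun i => by simp [b]
  have h3 := b.sum_repr' v
  rw [Fin.sum_univ_succ] at h3
  simp only [hb, u, Fin.cons_zero, Fin.cons_succ] at h3
  rw [real_inner_smul_left, hv, mul_zero, zero_smul, zero_add] at h3
  exact h3

lemma pol_parseval {k : Z3} (hk : k ≠ 0) (v : E3) (hv : inner ℝ (vec k) v = 0) :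
    ∑ σ, inner ℝ v (pol k σ) ^ 2 = ‖v‖ ^ 2 := by
  have h1 := pol_expand hk v hv
  rw [← real_inner_self_eq_norm_sq]
  conv_rhs => rw [← h1]
  rw [sum_inner]
  rw [h1]
  apply Finset.sum_congr rfl
  intro σ _
  rw [real_inner_smul_left, real_inner_comm v (pol k σ), sq]

/-! ### The half space -/

lemma dv_zero : Dv N 0 := fun _ => dvd_zero _

lemma ne_zero_of {k : Z3} (hk : ¬ Dv N k) : k ≠ 0 := by
  rintro rfl
  exact hk dv_zero

lemma hp_or {k : Z3} (hk : k ≠ 0) : hp k ∨ hp (-k) := by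
  by_contra h
  push Not at h
  apply hk
  unfold hp at h
  simp only [Pi.neg_apply] at h
  have h0 : k 0 = 0 := by omega
  have h1 : k 1 = 0 := by omega
  have h2 : k 2 = 0 := by omega
  funext i
  fin_cases i
  · exact h0
  · exact h1
  · exact h2

lemma hp_not {k : Z3} (hk : hp k) : ¬ hp (-k) := by
  unfold hp at *
  simp only [Pi.neg_apply]
  omega

lemma hp_ne {k : Z3} (hk : hp k) : k ≠ -k := by
  intro h
  have := hp_not hk
  rw [← h] at this
  exact this hk

/-! ### The modes -/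

lemma fk_self (p : Kx N) : fk N p p.1.1 = (√2)⁻¹ • pol p.1.1 p.2 := by
  unfold fk
  rw [if_pos rfl]

lemma fk_neg (p : Kx N) : fk N p (-p.1.1) = -((√2)⁻¹ • pol p.1.1 p.2) := by
  unfold fk
  rw [if_neg (hp_ne p.1.2.2).symm, if_pos rfl]

lemma fk_other (p : Kx N) {q : Z3} (h1 : q ≠ p.1.1) (h2 : q ≠ -p.1.1) : fk N p q = 0 := by
  unfold fk
  rw [if_neg h1, if_neg h2]

lemma fk_supp (p : Kx N) {q : Z3} (h : fk N p q ≠ 0) : q = p.1.1 ∨ q = -p.1.1 := by
  by_contra h1
  push Not at h1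
  exact h (fk_other p h1.1 h1.2)

lemma fk_ot (p : Kx N) : OT (fk N p) := by
  have hne := hp_ne p.1.2.2
  have hk := ne_zero_of p.1.2.1
  constructor
  · intro q
    by_cases h1 : q = p.1.1
    · subst h1
      rw [fk_neg, fk_self]
    · by_cases h2 : q = -p.1.1
      · subst h2
        rw [neg_neg, fk_neg, fk_self, neg_neg]
      · rw [fk_other p h1 h2, fk_other p, neg_zero]
        · intro h
          exact h2 (neg_eq_iff_eq_neg.1 h)
        · intro h
          exact h1 (neg_injective h)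
  · intro q
    by_cases h1 : q = p.1.1
    · subst h1
      rw [fk_self, real_inner_smul_right, (pol_spec hk).2, mul_zero]
    · by_cases h2 : q = -p.1.1
      · subst h2
        rw [fk_neg, vec_neg, inner_neg_neg, real_inner_smul_right, (pol_spec hk).2, mul_zero]
      · rw [fk_other p h1 h2, inner_zero_right]

lemma fk_supp' (p : Kx N) {k : Z3} (h : fk N p k ≠ 0) : ¬ Dv N k ∧ ‖vec k‖ = ‖vec p.1.1‖ := by
  rcases fk_supp p h with rfl | rfl
  · exact ⟨p.1.2.1, rfl⟩
  · exact ⟨fun h => p.1.2.1 (dv_neg.1 h), by rw [vec_neg, norm_neg]⟩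

lemma fk_tsum {E : Type} [AddCommMonoid E] [TopologicalSpace E] (p : Kx N) (f : Z3 → E)
    (hf : ∀ k, fk N p k = 0 → f k = 0) : ∑' k, f k = f p.1.1 + f (-p.1.1) := by
  rw [tsum_eq_sum (s := {p.1.1, -p.1.1})]
  · rw [Finset.sum_pair (hp_ne p.1.2.2)]
  · intro k hk
    simp only [Finset.mem_insert, Finset.mem_singleton, not_or] at hk
    exact hf k (fk_other p hk.1 hk.2)

lemma sq2 : (0 : ℝ) < √2 := by positivity

lemma pair_fk {V : Fam} (hV : OT V) (p : Kx N) :
    pair V (fk N p) = √2 * inner ℝ (V p.1.1) (pol p.1.1 p.2) := by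
  unfold pair
  rw [fk_tsum p _ (fun k hk => by rw [hk, inner_zero_right]), fk_self, fk_neg, hV.odd, inner_neg_neg,
    real_inner_smul_right]
  have h1 : (√2) * (√2) = 2 := Real.mul_self_sqrt (by norm_num)
  have h2 : (√2)⁻¹ = √2 / 2 := by
    field_simp
    linarith
  rw [h2]
  ring

lemma norm_pol {k : Z3} (hk : k ≠ 0) (σ : Fin 2) : ‖pol k σ‖ = 1 := (pol_spec hk).1.1 σ

lemma fk_l1 (p : Kx N) : ∑' k, ‖fk N p k‖ ≤ 2 := by
  have hk := ne_zero_of p.1.2.1
  rw [fk_tsum p _ (fun k hk => by rw [hk, norm_zero]), fk_self, fk_neg, norm_neg, norm_smul,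
    norm_pol hk, mul_one, Real.norm_eq_abs, abs_of_pos (by positivity)]
  have h1 : (√2)⁻¹ ≤ 1 := by
    rw [inv_le_one₀ sq2]
    exact Real.one_le_sqrt.2 (by norm_num)
  linarith

lemma inv_sum {q : ℕ} (hq : 6 ≤ q) : Summable (fun p : Kx N => 1 / ‖vec p.1.1‖ ^ q) := by
  have h1 : Summable (fun k : {k : Z3 // ¬ Dv N k ∧ hp k} => 1 / ‖vec k.1‖ ^ q) := by
    have h2 := (sum_three.mul_left 64).comp_injective
      (Subtype.val_injective (p := fun k : Z3 => ¬ Dv N k ∧ hp k))
    refine Summable.of_nonneg_of_le (fun k => by positivity) (fun k => ?_) h2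
    have h3 := one_le_vec (ne_zero_of k.2.1)
    have h0 := coord_le k.1 0
    have h1 := coord_le k.1 1
    have h2 := coord_le k.1 2
    simp only [Function.comp_apply]
    calc 1 / ‖vec k.1‖ ^ q ≤ 1 / ‖vec k.1‖ ^ 6 :=
          one_div_le_one_div_of_le (by positivity) (pow_le_pow_right₀ h3 hq)
      _ = 64 * (2 * ‖vec k.1‖)⁻¹ ^ 6 := by
          have : ‖vec k.1‖ ≠ 0 := by positivity
          field_simp
          norm_num
      _ ≤ 64 * (1 + ‖vec k.1‖)⁻¹ ^ 6 := by
          gcongr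
          linarith
      _ = 64 * ((1 + ‖vec k.1‖)⁻¹ ^ 2 * ((1 + ‖vec k.1‖)⁻¹ ^ 2 * (1 + ‖vec k.1‖)⁻¹ ^ 2)) := by
          ring
      _ ≤ _ := by gcongr
  rw [summable_prod_of_nonneg (fun p => by positivity)]
  refine ⟨fun x => Summable.of_finite, ?_⟩
  simp only [tsum_fintype, Fin.sum_univ_two]
  exact h1.add h1

lemma fk_orth (p q : Kx N) :
    (p = q → pair (fk N p) (fk N q) = 1) ∧ (p ≠ q → pair (fk N p) (fk N q) = 0) := by
  have hk := ne_zero_of q.1.2.1
  have ho := (pol_spec hk).1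
  rw [orthonormal_iff_ite] at ho
  rw [pair_fk (fk_ot p)]
  constructor
  · rintro rfl
    rw [fk_self, real_inner_smul_left, ho, if_pos rfl, mul_one]
    exact mul_inv_cancel₀ sq2.ne'
  · intro hpq
    by_cases h1 : q.1.1 = p.1.1
    · have h2 : p.1 = q.1 := Subtype.ext h1.symm
      have h3 : p.2 ≠ q.2 := fun h3 => hpq (Prod.ext h2 h3)
      obtain ⟨p1, p2⟩ := p
      simp only at h2 h3
      subst h2
      rw [fk_self ⟨q.1, p2⟩, real_inner_smul_left, ho, if_neg h3, mul_zero, mul_zero]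
    · rw [fk_other p h1, inner_zero_left, mul_zero]
      intro h2
      have h3 := q.1.2.2
      rw [h2] at h3
      exact hp_not p.1.2.2 h3

/-! ### Expansions -/

lemma fk_hasSum {V : Fam} (hV : OT V) (k : Z3) :
    (Dv N k → HasSum (fun p : Kx N => pair V (fk N p) • fk N p k) 0) ∧
    (¬ Dv N k → HasSum (fun p : Kx N => pair V (fk N p) • fk N p k) (V k)) := by
  classical
  constructor
  · intro hk
    have h1 : ∀ p : Kx N, pair V (fk N p) • fk N p k = 0 := by
      intro p
      have h2 : fk N p k = 0 := by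
        by_contra h
        exact (fk_supp' p h).1 hk
      rw [h2, smul_zero]
    simp only [h1]
    exact hasSum_zero
  · intro hk
    have hs : √2 * (√2)⁻¹ = 1 := mul_inv_cancel₀ sq2.ne'
    have main : ∀ (κ : {k : Z3 // ¬ Dv N k ∧ hp k}) (z : Z3), (z = κ.1 ∨ z = -κ.1) →
        ∑ σ, pair V (fk N (κ, σ)) • fk N (κ, σ) z = V z →
        HasSum (fun p : Kx N => pair V (fk N p) • fk N p z) (V z) := by
      intro κ z hz hsum
      have h1 : HasSum (fun p : Kx N => pair V (fk N p) • fk N p z)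
          (∑ p ∈ Finset.univ.image (fun σ : Fin 2 => ((κ, σ) : Kx N)),
            pair V (fk N p) • fk N p z) := by
        apply hasSum_sum_of_ne_finset_zero
        intro p hp'
        have h2 : fk N p z = 0 := by
          by_contra h3
          have h4 := fk_supp p h3
          apply hp'
          have h5 : p.1.1 = κ.1 := by
            rcases h4 with h4 | h4 <;> rcases hz with h5 | h5
            · rw [← h4, h5]
            · exfalso
              have h6 := p.1.2.2
              rw [← h4, h5] at h6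
              exact hp_not κ.2.2 h6
            · exfalso
              have h6 := κ.2.2
              rw [← h5, h4] at h6
              exact hp_not p.1.2.2 h6
            · exact neg_injective (h4.symm.trans h5)
          simp only [Finset.mem_image, Finset.mem_univ, true_and]
          exact ⟨p.2, Prod.ext (Subtype.ext h5.symm) rfl⟩
        rw [h2, smul_zero]
      rw [Finset.sum_image] at h1
      · rw [hsum] at h1
        exact h1
      · intro σ _ τ _ h
        exact (Prod.mk.injEq _ _ _ _ ▸ h).2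
    rcases hp_or (ne_zero_of hk) with h1 | h1
    · refine main ⟨k, hk, h1⟩ k (Or.inl rfl) ?_
      have h2 : ∀ σ, pair V (fk N (⟨k, hk, h1⟩, σ)) • fk N (⟨k, hk, h1⟩, σ) k =
          inner ℝ (pol k σ) (V k) • pol k σ := by
        intro σ
        rw [pair_fk hV, fk_self (⟨⟨k, hk, h1⟩, σ⟩ : Kx N), smul_smul, real_inner_comm]
        congr 1
        calc _ = (√2 * (√2)⁻¹) * inner ℝ (pol k σ) (V k) := by ring
          _ = _ := by rw [hs, one_mul]
      rw [Finset.sum_congr rfl (fun σ _ => h2 σ)]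
      exact pol_expand (ne_zero_of hk) _ (hV.tan k)
    · have hk' : ¬ Dv N (-k) := fun h => hk (dv_neg.1 h)
      refine main ⟨-k, hk', h1⟩ k (Or.inr (neg_neg k).symm) ?_
      have h2 : ∀ σ, pair V (fk N (⟨-k, hk', h1⟩, σ)) • fk N (⟨-k, hk', h1⟩, σ) k =
          -(inner ℝ (pol (-k) σ) (V (-k)) • pol (-k) σ) := by
        intro σ
        have h3 := fk_neg (⟨⟨-k, hk', h1⟩, σ⟩ : Kx N)
        simp only [neg_neg] at h3
        rw [pair_fk hV, h3, smul_neg, smul_smul, real_inner_comm]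
        congr 2
        calc _ = (√2 * (√2)⁻¹) * inner ℝ (pol (-k) σ) (V (-k)) := by ring
          _ = _ := by rw [hs, one_mul]
      rw [Finset.sum_congr rfl (fun σ _ => h2 σ), Finset.sum_neg_distrib,
        pol_expand (ne_zero_of hk') _ (hV.tan (-k)), hV.odd, neg_neg]

open Classical in
/-- the weighted Parseval identity -/
lemma fk_parseval {V : Fam} (hV : OT V) (hR : Rap V) (w : Z3 → ℝ) (hw : ∀ k, w (-k) = w k)
    (hb : ∃ (D : ℝ) (q : ℕ), ∀ k, |w k| ≤ D * (1 + ‖vec k‖) ^ q) :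
    HasSum (fun p : Kx N => w p.1.1 * pair V (fk N p) ^ 2)
      (∑' k, if Dv N k then 0 else w k * ‖V k‖ ^ 2) := by
  obtain ⟨D, q, hD⟩ := hb
  set G : Z3 → ℝ := fun k => if Dv N k then 0 else w k * ‖V k‖ ^ 2 with hG
  have hGs : Summable (fun k => ‖G k‖) := by
    apply sum_rap
    obtain ⟨M0, hM0⟩ := rap_all hR 0
    obtain ⟨M1, hM1⟩ := rap_all hR (6 + q)
    have hD0 : 0 ≤ D := by
      have := (abs_nonneg _).trans (hD 0)
      by_contra h
      push Not at h
      have h2 : D * (1 + ‖vec 0‖) ^ q < 0 := mul_neg_of_neg_of_pos h (by positivity)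
      linarith
    have hM00 : 0 ≤ M0 := le_trans (by positivity) (hM0 0)
    have hM10 : 0 ≤ M1 := le_trans (by positivity) (hM1 0)
    refine ⟨D * M1 * M0, fun k => ?_⟩
    by_cases hk : Dv N k
    · simp only [hG, if_pos hk, norm_zero, mul_zero]
      positivity
    · simp only [hG, if_neg hk]
      rw [norm_mul, norm_pow, norm_norm, Real.norm_eq_abs]
      have h1 := hM0 k
      rw [pow_zero, one_mul] at h1
      calc (1 + ‖vec k‖) ^ 6 * (|w k| * ‖V k‖ ^ 2)
          ≤ (1 + ‖vec k‖) ^ 6 * ((D * (1 + ‖vec k‖) ^ q) * ‖V k‖ ^ 2) := by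
            gcongr
            exact hD k
        _ = D * ((1 + ‖vec k‖) ^ (6 + q) * ‖V k‖) * ‖V k‖ := by ring
        _ ≤ D * M1 * M0 := by
            gcongr
            exact hM1 k
  have hGneg : ∀ k, G (-k) = G k := by
    intro k
    simp only [hG, dv_neg, hw, hV.odd, norm_neg]
  -- the sum over one fibre
  have hfib : ∀ κ : {k : Z3 // ¬ Dv N k ∧ hp k},
      ∑ σ : Fin 2, pair V (fk N (κ, σ)) ^ 2 = 2 * ‖V κ.1‖ ^ 2 := by
    intro κ
    have h1 := pol_parseval (ne_zero_of κ.2.1) (V κ.1) (hV.tan κ.1)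
    rw [← h1, Finset.mul_sum]
    apply Finset.sum_congr rfl
    intro σ _
    rw [pair_fk hV, mul_pow, Real.sq_sqrt (by norm_num)]
  have hsubG : Summable (fun κ : {k : Z3 // ¬ Dv N k ∧ hp k} => ‖G κ.1‖) :=
    hGs.comp_injective Subtype.val_injective
  have hS : Summable (fun p : Kx N => ‖w p.1.1 * pair V (fk N p) ^ 2‖) := by
    rw [summable_prod_of_nonneg (fun p => norm_nonneg _)]
    refine ⟨fun x => Summable.of_finite, ?_⟩
    refine (hsubG.mul_left 2).congr (fun κ => ?_)
    rw [tsum_fintype]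
    have h1 : ∀ σ : Fin 2, ‖w κ.1 * pair V (fk N (κ, σ)) ^ 2‖ = |w κ.1| * pair V (fk N (κ, σ)) ^ 2 := by
      intro σ
      rw [norm_mul, Real.norm_eq_abs, Real.norm_eq_abs, abs_of_nonneg (sq_nonneg (pair V _))]
    rw [Finset.sum_congr rfl (fun σ _ => h1 σ), ← Finset.mul_sum, hfib κ]
    simp only [hG, if_neg κ.2.1]
    rw [norm_mul, norm_pow, norm_norm, Real.norm_eq_abs]
    ring
  have hS' := hS.of_norm
  have h1 : ∑' p : Kx N, w p.1.1 * pair V (fk N p) ^ 2 = ∑' k, G k := by
    rw [hS'.tsum_prod]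
    have h2 : ∀ κ : {k : Z3 // ¬ Dv N k ∧ hp k},
        ∑' σ : Fin 2, w κ.1 * pair V (fk N (κ, σ)) ^ 2 = 2 * G κ.1 := by
      intro κ
      rw [tsum_fintype, ← Finset.mul_sum, hfib κ]
      simp only [hG, if_neg κ.2.1]
      ring
    rw [tsum_congr h2, tsum_mul_left]
    let A : Set Z3 := {k | ¬ Dv N k ∧ hp k}
    have h3 : ∑' κ : {k : Z3 // ¬ Dv N k ∧ hp k}, G κ.1 = ∑' k, A.indicator G k :=
      tsum_subtype A G
    have h4 : ∀ k, G k = A.indicator G k + A.indicator G (-k) := by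
      intro k
      by_cases hk : Dv N k
      · have h5 : k ∉ A := fun h => h.1 hk
        have h6 : -k ∉ A := fun h => h.1 (dv_neg.2 hk)
        rw [Set.indicator_of_notMem h5, Set.indicator_of_notMem h6]
        simp only [hG, if_pos hk, add_zero]
      · have hk' : ¬ Dv N (-k) := fun h => hk (dv_neg.1 h)
        rcases hp_or (ne_zero_of hk) with h5 | h5
        · have h6 : k ∈ A := ⟨hk, h5⟩
          have h7 : -k ∉ A := fun h => hp_not h5 h.2
          rw [Set.indicator_of_mem h6, Set.indicator_of_notMem h7, add_zero]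
        · have h6 : -k ∈ A := ⟨hk', h5⟩
          have h7 : k ∉ A := fun h => hp_not h.2 h5
          rw [Set.indicator_of_mem h6, Set.indicator_of_notMem h7, zero_add, hGneg]
    have h5 : Summable (A.indicator G) := hGs.of_norm.indicator A
    have h6 : Summable (fun k => A.indicator G (-k)) :=
      h5.comp_injective neg_injective
    rw [tsum_congr h4, h5.tsum_add h6, h3]
    have h7 : ∑' k, A.indicator G (-k) = ∑' k, A.indicator G k :=
      (Equiv.neg Z3).tsum_eq (A.indicator G)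
    rw [h7]
    ring
  rw [← h1]
  exact hS'.hasSum

theorem t_CMP : S_CMP := by
  intro N hN
  refine ⟨fk_ot, fun p k => fk_supp' p, fun p => one_le_vec (ne_zero_of p.1.2.1), fk_l1,
    inv_sum (by norm_num), fk_orth, ?_, ?_⟩
  · intro V hV k
    by_cases hk : Dv N k
    · rw [if_pos hk]
      exact (fk_hasSum hV k).1 hk
    · rw [if_neg hk]
      exact (fk_hasSum hV k).2 hk
  · intro V hV hR w hw hb
    exact fk_parseval hV hR w hw hb

end Pool.Agent.Y288.NS
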