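import Pool.Agent.Y5.G.Stm

/-! Dilations of families of coefficients. -/

open Set Filter Topology MeasureTheory

set_option autoImplicit false

namespace Pool.Agent.Y288.NS

open Pool.Agent.Y5 Pool.Agent.Y5.D Pool.Agent.Y5.E Pool.Agent.Y5.F Pool.Agent.Y5.G

/-- multiplication by `N` -/
def mN (N : ℕ) (l : Z3) : Z3 := fun i => (N : ℤ) * l i

variable {N : ℕ}

lemma mN_inj (hN : 0 < N) : Function.Injective (mN N) := by
  intro k l h
  funext i
  have h1 := congrFun h i
  have h2 : (N : ℤ) ≠ 0 := by exact_mod_cast hN.ne'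
  exact mul_left_cancel₀ h2 h1

lemma mN_div (l : Z3) : Dv N (mN N l) := fun i => ⟨l i, rfl⟩

lemma exists_mN {k : Z3} (hk : Dv N k) : ∃ l : Z3, k = mN N l := by
  choose l hl using hk
  exact ⟨l, funext hl⟩

lemma dil_mN (hN : 0 < N) (V : Fam) (l : Z3) : dil N V (mN N l) = V l := by
  unfold dil
  rw [if_pos (mN_div l)]
  congr 1
  funext i
  have h2 : (N : ℤ) ≠ 0 := by exact_mod_cast hN.ne'
  exact Int.mul_ediv_cancel_left _ h2

lemma dil_not (V : Fam) {k : Z3} (hk : ¬ Dv N k) : dil N V k = 0 := by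
  unfold dil
  rw [if_neg hk]

lemma vec_mN (l : Z3) : vec (mN N l) = (N : ℝ) • vec l := by
  ext i
  simp [vec, mN]

lemma norm_mN (l : Z3) : ‖vec (mN N l)‖ = N * ‖vec l‖ := by
  rw [vec_mN, norm_smul, Real.norm_eq_abs, Nat.abs_cast]

lemma neg_mN (l : Z3) : mN N (-l) = -mN N l := by
  funext i
  simp [mN]

lemma sub_mN (k l : Z3) : mN N (k - l) = mN N k - mN N l := by
  funext i
  simp [mN, mul_sub]

lemma dv_neg {k : Z3} : Dv N (-k) ↔ Dv N k := by
  unfold Dv
  simp

lemma not_range {k : Z3} (hk : k ∉ Set.range (mN N)) : ¬ Dv N k := by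
  intro h
  obtain ⟨l, hl⟩ := exists_mN h
  exact hk ⟨l, hl.symm⟩

/-- reindexing of sums along `mN` -/
lemma tsum_mN (hN : 0 < N) {E : Type} [AddCommMonoid E] [TopologicalSpace E] (f : Z3 → E)
    (hf : ∀ k, ¬ Dv N k → f k = 0) : ∑' k, f k = ∑' l, f (mN N l) := by
  refine ((mN_inj hN).tsum_eq (f := f) ?_).symm
  intro k hk
  by_contra h
  exact hk (hf k (not_range h))

lemma summable_mN (hN : 0 < N) (f : Z3 → ℝ) (hf : ∀ k, ¬ Dv N k → f k = 0) :
    Summable f ↔ Summable (fun l => f (mN N l)) := by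
  refine ((mN_inj hN).summable_iff (f := f) ?_).symm
  intro k hk
  exact hf k (not_range hk)

lemma norm_le_mN (hN : 0 < N) (l : Z3) : ‖vec l‖ ≤ ‖vec (mN N l)‖ := by
  rw [norm_mN]
  have : (1 : ℝ) ≤ N := by exact_mod_cast hN
  nlinarith [norm_nonneg (vec l)]

theorem t_DIL : S_DIL := by
  intro N hN
  have hN1 : (1 : ℝ) ≤ N := by exact_mod_cast hN
  refine ⟨fun k => mN_div k, fun k hk => exists_mN hk, ?_, ?_, ?_, ?_, ?_, ?_, fun V k hk => dil_not V hk,
    fun k => norm_mN k, ?_, ?_, ?_, ?_, ?_, ?_, ?_, ?_, ?_⟩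
  · -- OT dil
    intro V hV
    constructor
    · intro k
      by_cases hk : Dv N k
      · obtain ⟨l, rfl⟩ := exists_mN hk
        rw [← neg_mN, dil_mN hN, dil_mN hN, hV.odd]
      · rw [dil_not V hk, dil_not V (fun h => hk (dv_neg.1 h)), neg_zero]
    · intro k
      by_cases hk : Dv N k
      · obtain ⟨l, rfl⟩ := exists_mN hk
        rw [dil_mN hN, vec_mN, inner_smul_left, hV.tan, mul_zero]
      · rw [dil_not V hk, inner_zero_right]
  · -- OT res
    intro V hV
    constructor
    · intro k
      have := hV.odd (mN N k)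
      rw [← neg_mN] at this
      exact this
    · intro k
      have h1 := hV.tan (mN N k)
      rw [vec_mN, inner_smul_left] at h1
      have h2 : (starRingEnd ℝ) (N : ℝ) ≠ 0 := by
        simp only [conj_trivial]
        positivity
      exact (mul_eq_zero.1 h1).resolve_left h2
  · -- Rap dil
    intro V hV m
    obtain ⟨M, hM⟩ := hV m
    have hM0 : 0 ≤ M := le_trans (by positivity) (hM 0)
    refine ⟨N ^ m * M, fun k => ?_⟩
    by_cases hk : Dv N k
    · obtain ⟨l, rfl⟩ := exists_mN hk
      rw [dil_mN hN, norm_mN, mul_pow, mul_assoc]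
      exact mul_le_mul_of_nonneg_left (hM l) (by positivity)
    · rw [dil_not V hk, norm_zero, mul_zero]
      positivity
  · -- Rap res
    intro V hV m
    obtain ⟨M, hM⟩ := hV m
    refine ⟨M, fun k => le_trans ?_ (hM (mN N k))⟩
    exact mul_le_mul_of_nonneg_right (pow_le_pow_left₀ (norm_nonneg _) (norm_le_mN hN k) m)
      (norm_nonneg _)
  · intro V
    funext k
    exact dil_mN hN V k
  · intro V k hk
    obtain ⟨l, rfl⟩ := exists_mN hk
    rw [dil_mN hN]
    rfl
  · intro V
    rw [tsum_mN hN _ (fun k hk => by rw [dil_not V hk, norm_zero])]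
    exact tsum_congr (fun l => by rw [dil_mN hN])
  · intro w V
    rw [tsum_mN hN _ (fun k hk => by rw [dil_not V hk, norm_zero]; simp)]
    exact tsum_congr (fun l => by rw [dil_mN hN]; rfl)
  · intro w V
    rw [summable_mN hN _ (fun k hk => by rw [dil_not V hk, norm_zero]; simp)]
    exact summable_congr (fun l => by rw [dil_mN hN]; rfl)
  · intro V W
    unfold pair
    rw [tsum_mN hN _ (fun k hk => by rw [dil_not W hk, inner_zero_right])]
    exact tsum_congr (fun l => by rw [dil_mN hN]; rfl)
  · intro V W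
    unfold pair
    rw [tsum_mN hN _ (fun k hk => by rw [dil_not W hk, inner_zero_right])]
    exact tsum_congr (fun l => by rw [dil_mN hN, dil_mN hN])
  · -- bil
    intro V W Z
    unfold bil
    have hinj : Function.Injective (Prod.map (mN N) (mN N)) := (mN_inj hN).prodMap (mN_inj hN)
    have h1 : ∑' q : Z3 × Z3, inner ℝ (dil N V q.1) (vec q.2) *
        inner ℝ (dil N W (q.2 - q.1)) (dil N Z q.2) =
        ∑' q : Z3 × Z3, inner ℝ (dil N V (mN N q.1)) (vec (mN N q.2)) *
        inner ℝ (dil N W (mN N q.2 - mN N q.1)) (dil N Z (mN N q.2)) := by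
      refine (hinj.tsum_eq (f := fun q : Z3 × Z3 => inner ℝ (dil N V q.1) (vec q.2) *
        inner ℝ (dil N W (q.2 - q.1)) (dil N Z q.2)) ?_).symm
      intro q hq
      rw [Set.range_prodMap]
      constructor
      · by_contra h
        apply hq
        simp [dil_not V (not_range h)]
      · by_contra h
        apply hq
        simp [dil_not Z (not_range h)]
    have h2 : ∀ q : Z3 × Z3, inner ℝ (dil N V (mN N q.1)) (vec (mN N q.2)) *
        inner ℝ (dil N W (mN N q.2 - mN N q.1)) (dil N Z (mN N q.2)) =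
        N * (inner ℝ (V q.1) (vec q.2) * inner ℝ (W (q.2 - q.1)) (Z q.2)) := by
      intro q
      rw [dil_mN hN, ← sub_mN, dil_mN hN, dil_mN hN, vec_mN, inner_smul_right]
      ring
    rw [h1, tsum_congr h2, tsum_mul_left]
    ring
  · -- bil zero
    intro V W Z hZ
    unfold bil
    have : ∀ q : Z3 × Z3, inner ℝ (dil N V q.1) (vec q.2) * inner ℝ (dil N W (q.2 - q.1)) (Z q.2)
        = 0 := by
      intro q
      by_cases h1 : Dv N q.2
      · rw [hZ _ h1, inner_zero_right, mul_zero]
      · by_cases h2 : Dv N q.1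
        · have h3 : ¬ Dv N (q.2 - q.1) := by
            intro h3
            apply h1
            intro i
            have := dvd_add (h3 i) (h2 i)
            simpa using this
          rw [dil_not W h3, inner_zero_left, mul_zero]
        · rw [dil_not V h2, inner_zero_left, zero_mul]
    rw [tsum_congr this, tsum_zero, mul_zero]
  · -- pair zero
    intro V Z hZ
    unfold pair
    have : ∀ k, inner ℝ (dil N V k) (Z k) = 0 := by
      intro k
      by_cases h1 : Dv N k
      · rw [hZ _ h1, inner_zero_right]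
      · rw [dil_not V h1, inner_zero_left]
    rw [tsum_congr this, tsum_zero]
  · intro V y
    unfold fieldOf
    rw [tsum_mN hN _ (fun k hk => by rw [dil_not V hk, smul_zero])]
    apply tsum_congr
    intro l
    rw [dil_mN hN, vec_mN, inner_smul_left, inner_smul_right]
    simp

end Pool.Agent.Y288.NS
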