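import Pool.Agent.Y288.NS.Cmp

/-! The combined orthonormal system. -/

open Set Filter Topology MeasureTheory

set_option autoImplicit false

namespace Pool.Agent.Y288.NS

open Pool.Agent.Y5 Pool.Agent.Y5.D Pool.Agent.Y5.E Pool.Agent.Y5.F Pool.Agent.Y5.G
open Pool.Agent.Y274.NE (Bs expand good_of_rap coef_rap syn_sum' supp_finite)
open Pool.Agent.Y275.ND (syn)

lemma bs_exists_supp {J : Type} {g : J → ℕ} {L M : ℕ → ℝ} {e : Ix J → Fam} (h : Bs g L M e)
    (a : Ix J) : ∃ k, e a k ≠ 0 := by
  by_contra h1
  push Not at h1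
  have h2 := (h.orth a a).1 rfl
  unfold pair at h2
  simp only [h1, inner_zero_left, tsum_zero] at h2
  exact zero_ne_one h2

lemma bs_hasSum {J : Type} {g : J → ℕ} {L M : ℕ → ℝ} {e : Ix J → Fam} (h : Bs g L M e)
    (V : Fam) (hV : OT V) (hR : Rap V) (k : Z3) :
    HasSum (fun a => pair V (e a) • e a k) (V k) := by
  have hg := good_of_rap h (coef_rap h V hR)
  have h1 := (syn_sum' h hg k).of_norm.hasSum
  have h2 := congrFun (expand h V hV hR) k
  unfold syn at h2
  rw [← h2] at h1
  exact h1

theorem t_OBC : S_DIL → S_CMP → S_OBC := by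
  intro hD hC J g L M e N hN h
  obtain ⟨-, -, d3, d4, d5, d6, d7, d8, d9, d10, d11, -, -, d14, d15, -, -, d18, -⟩ := hD N hN
  obtain ⟨c1, c2, c3, c4, c5, c6, c7, -⟩ := hC N hN
  have hN1 : (1 : ℝ) ≤ N := by exact_mod_cast hN
  have hM := h.M1
  have hdv : ∀ (V : Fam) (k : Z3), dil N V k ≠ 0 → ∃ l, k = mN N l ∧ V l ≠ 0 := by
    intro V k hk
    by_cases h1 : Dv N k
    · obtain ⟨l, rfl⟩ := exists_mN h1
      rw [dil_mN hN] at hk
      exact ⟨l, rfl, hk⟩
    · exact absurd (dil_not V h1) hk
  have hzero : ∀ (p : Kx N) k, Dv N k → fk N p k = 0 := by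
    intro p k hk
    by_contra h1
    exact (c2 p k h1).1 hk
  constructor
  · rintro (a | p)
    · exact d3 _ (h.ot a)
    · exact c1 p
  · rintro (a | p) k hk
    · obtain ⟨l, rfl, hl⟩ := hdv _ k hk
      have h1 := h.fsupp a l hl
      have h2 := norm_mN (N := N) l
      simp only [Sum.elim_inl]
      rw [h2]
      constructor
      · nlinarith
      · have h3 : (N : ℝ) * ‖vec l‖ ≤ N * M (gr g a) := mul_le_mul_of_nonneg_left h1.2 (by linarith)
        have h4 : 0 ≤ (N : ℝ) * M (gr g a) := mul_nonneg (by linarith) (by linarith [hM (gr g a)])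
        linarith
    · have h1 := c2 p k hk
      have h2 := c3 p
      simp only [Sum.elim_inr]
      rw [h1.2]
      constructor <;> linarith
  · rintro (a | p)
    · simp only [Sum.elim_inl]
      nlinarith [hM (gr g a)]
    · simp only [Sum.elim_inr]
      linarith [c3 p]
  · obtain ⟨D, hD0, hlow⟩ := h.lowf
    have hM0 := hM 0
    refine ⟨2 * N * (M 0 * D ^ 4) + 2, by positivity, ?_⟩
    rintro (a | p) k hk
    · obtain ⟨l, rfl, hl⟩ := hdv _ k hk
      simp only [Sum.elim_inl]
      have h1 := norm_le_mN hN l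
      have h2 := hlow a l hl
      have hL := h.L1 (gr g a)
      have h3 : M (gr g a) ≤ (M 0 * D ^ 4) * ‖vec (mN N l)‖ ^ 12 := by
        calc M (gr g a) ≤ M 0 * L (gr g a) ^ 4 := h.MB _
          _ ≤ M 0 * (D * ‖vec l‖ ^ 3) ^ 4 := by gcongr
          _ = (M 0 * D ^ 4) * ‖vec l‖ ^ 12 := by ring
          _ ≤ (M 0 * D ^ 4) * ‖vec (mN N l)‖ ^ 12 := by gcongr
      have h4 : 0 ≤ ‖vec (mN N l)‖ ^ 12 := by positivity
      calc 2 * N * M (gr g a) ≤ 2 * N * ((M 0 * D ^ 4) * ‖vec (mN N l)‖ ^ 12) := by gcongr
        _ = (2 * N * (M 0 * D ^ 4)) * ‖vec (mN N l)‖ ^ 12 := by ring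
        _ ≤ (2 * N * (M 0 * D ^ 4) + 2) * ‖vec (mN N l)‖ ^ 12 := by
            gcongr
            linarith
    · simp only [Sum.elim_inr]
      have h1 := c2 p k hk
      have h2 := c3 p
      rw [← h1.2] at h2 ⊢
      have h3 : ‖vec k‖ ≤ ‖vec k‖ ^ 12 := by
        calc ‖vec k‖ = ‖vec k‖ ^ 1 := (pow_one _).symm
          _ ≤ ‖vec k‖ ^ 12 := pow_le_pow_right₀ h2 (by norm_num)
      have h4 : 0 ≤ 2 * N * (M 0 * D ^ 4) := by positivity
      nlinarith [pow_nonneg (norm_nonneg (vec k)) 12]
  · rintro (a | p)
    · simp only [Sum.elim_inl]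
      refine (d11 (e a)).le.trans ((h.l1 a).trans ?_)
      nlinarith [hM (gr g a)]
    · simp only [Sum.elim_inr]
      refine (c4 p).trans ?_
      linarith [c3 p]
  · obtain ⟨D, hD0, hlow⟩ := h.lowf
    refine Summable.sum _ ?_ ?_
    · refine Summable.of_nonneg_of_le (fun a => ?_) (fun a => ?_)
        ((Pool.Agent.Y274.NE.summable_L5 h).mul_left (D ^ 5))
      · have := hM (gr g a)
        simp only [Function.comp_apply, Sum.elim_inl]
        positivity
      · simp only [Function.comp_apply, Sum.elim_inl]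
        obtain ⟨k, hk⟩ := bs_exists_supp h a
        have h1 := h.fsupp a k hk
        have h2 := hlow a k hk
        have hL := h.L1 (gr g a)
        have hMa := hM (gr g a)
        have h3 : L (gr g a) ^ 5 ≤ D ^ 5 * (2 * N * M (gr g a)) ^ 15 := by
          calc L (gr g a) ^ 5 ≤ (D * ‖vec k‖ ^ 3) ^ 5 := by gcongr
            _ = D ^ 5 * ‖vec k‖ ^ 15 := by ring
            _ ≤ D ^ 5 * M (gr g a) ^ 15 := by
                gcongr
                exact h1.2
            _ ≤ D ^ 5 * (2 * N * M (gr g a)) ^ 15 := by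
                gcongr
                nlinarith
        have h4 : 0 < L (gr g a) ^ 5 := by positivity
        have h5 : 0 < (2 * N * M (gr g a)) ^ 15 := by positivity
        rw [mul_one_div, div_le_div_iff₀ h5 h4, one_mul]
        exact h3
    · refine Summable.of_nonneg_of_le (fun p => ?_) (fun p => ?_) c5
      · simp only [Function.comp_apply, Sum.elim_inr]
        positivity
      · simp only [Function.comp_apply, Sum.elim_inr]
        have h2 := c3 p
        apply one_div_le_one_div_of_le (by positivity)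
        gcongr
        linarith
  · rintro (a | p) (b | q)
    · constructor
      · intro hab
        rw [Sum.inl.injEq] at hab
        exact (d15 _ _).trans ((h.orth a b).1 hab)
      · intro hab
        exact (d15 _ _).trans ((h.orth a b).2 (fun h1 => hab (by rw [h1])))
    · refine ⟨fun hab => absurd hab (by simp), fun _ => ?_⟩
      exact d18 _ _ (hzero q)
    · refine ⟨fun hab => absurd hab (by simp), fun _ => ?_⟩
      rw [Pool.Agent.Y275.ND.pair_comm]
      exact d18 _ _ (hzero p)
    · constructor
      · intro hab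
        rw [Sum.inr.injEq] at hab
        exact (c6 p q).1 hab
      · intro hab
        exact (c6 p q).2 (fun h1 => hab (by rw [h1]))
  · intro V hV hR k
    by_cases hk : Dv N k
    · obtain ⟨l, rfl⟩ := exists_mN hk
      rw [← add_zero (V (mN N l))]
      refine HasSum.sum ?_ ?_
      · have h1 := bs_hasSum h (res N V) (d4 V hV) (d6 V hR) l
        have h2 : (fun a => pair V (eC N e a) • eC N e a (mN N l)) ∘ Sum.inl =
            fun a => pair (res N V) (e a) • e a l := by
          funext a
          simp only [Function.comp_apply, eC, Sum.elim_inl]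
          rw [d14, dil_mN hN]
        rw [h2]
        exact h1
      · have h2 : (fun a => pair V (eC N e a) • eC N e a (mN N l)) ∘ Sum.inr =
            fun _ : Kx N => (0 : E3) := by
          funext p
          simp only [Function.comp_apply, eC, Sum.elim_inr]
          rw [hzero p _ hk, smul_zero]
        rw [h2]
        exact hasSum_zero
    · rw [← zero_add (V k)]
      refine HasSum.sum ?_ ?_
      · have h2 : (fun a => pair V (eC N e a) • eC N e a k) ∘ Sum.inl =
            fun _ : Ix J => (0 : E3) := by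
          funext p
          simp only [Function.comp_apply, eC, Sum.elim_inl]
          rw [dil_not _ hk, smul_zero]
        rw [h2]
        exact hasSum_zero
      · have h1 := c7 V hV k
        rw [if_neg hk] at h1
        exact h1

end Pool.Agent.Y288.NS
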